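import Mathlib

set_option autoImplicit false

namespace Pool.Agent.Results.MP_ec63c8_an.NotNecessary

open Filter Topology MeasureTheory Set

abbrev K : Type := unitInterval × unitInterval
abbrev X : Type := C(K, ℂ)

noncomputable def q (p : K) : ℂ := -((p.1 : ℝ) : ℂ) ^ 2 + (p.2 : ℝ) * Complex.I

theorem q_re (p : K) : (q p).re = -(p.1 : ℝ) ^ 2 := by simp [q, pow_two]
theorem q_im (p : K) : (q p).im = p.2 := by simp [q, pow_two]

noncomputable def E (t : ℝ) : X := ⟨fun p => Complex.exp (t * q p), by unfold q; fun_prop⟩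

theorem E_cont : Continuous E :=
  ContinuousMap.continuous_of_continuous_uncurry E (by
    show Continuous fun z : ℝ × K => Complex.exp (z.1 * q z.2)
    unfold q; fun_prop)

noncomputable def T (t : ℝ) : X →L[ℂ] X := ContinuousLinearMap.mul ℂ X (E t)

theorem T_apply (t : ℝ) (f : X) (p : K) : T t f p = Complex.exp (t * q p) * f p := rfl

theorem T_cont : Continuous T := (ContinuousLinearMap.mul ℂ X).continuous.comp E_cont

theorem E_norm (t : ℝ) (p : K) : ‖Complex.exp (t * q p)‖ = Real.exp (-(t * (p.1 : ℝ) ^ 2)) := by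
  rw [Complex.norm_exp, Complex.re_ofReal_mul, q_re, mul_neg]

theorem T_norm (t : ℝ) (ht : 0 ≤ t) : ‖T t‖ ≤ 1 := by
  refine (ContinuousLinearMap.opNorm_mul_apply_le ℂ X _).trans
    ((ContinuousMap.norm_le _ zero_le_one).2 fun p => ?_)
  refine (E_norm t p).trans_le (Real.exp_le_one_iff.2 ?_)
  simpa using mul_nonneg ht (sq_nonneg _)

noncomputable def x : X := ⟨fun p => ((p.1 : ℝ) : ℂ), by fun_prop⟩

theorem x_norm (p : K) : ‖x p‖ = p.1 := by
  show ‖((p.1 : ℝ) : ℂ)‖ = _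
  rw [Complex.norm_real, Real.norm_of_nonneg p.1.2.1]

theorem stable : Tendsto (fun t : ℝ => T t x) atTop (𝓝 0) := by
  refine squeeze_zero_norm' ?_ (tendsto_inv_atTop_zero.comp Real.tendsto_sqrt_atTop)
  filter_upwards [eventually_gt_atTop 0] with t ht
  have hs := Real.sqrt_pos.2 ht
  refine (ContinuousMap.norm_le _ (inv_pos.2 hs).le).2 fun p => ?_
  rw [T_apply, norm_mul, E_norm, x_norm, Real.exp_neg, inv_mul_eq_div,
    inv_eq_one_div, div_le_div_iff₀ (Real.exp_pos _) hs]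
  have h1 := Real.add_one_le_exp (t * (p.1 : ℝ) ^ 2)
  have h2 := Real.sq_sqrt ht.le
  nlinarith [sq_nonneg (√t * p.1 - 1), sq_nonneg (√t * p.1)]

theorem res (l : ℂ) (hl : 0 < l.re) (p : K) :
    ‖(∫ t in Ioi (0 : ℝ), Complex.exp (-(l * t)) • T t x) p‖ = p.1 / ‖l - q p‖ := by
  have hre : (-l).re < 0 := by simpa using hl
  have hi : IntegrableOn (fun t : ℝ => Complex.exp (-(l * t)) • T t x) (Ioi 0) := by
    refine Integrable.mono' ((integrableOn_exp_mul_complex_Ioi hre 0).norm.mul_const ‖x‖)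
      (Continuous.aestronglyMeasurable ?_) ?_
    · have h : Continuous fun t : ℝ => Complex.exp (-(l * t)) := by fun_prop
      exact h.smul (T_cont.clm_apply continuous_const)
    · filter_upwards [ae_restrict_mem measurableSet_Ioi] with t ht
      rw [norm_smul, neg_mul]
      refine mul_le_mul_of_nonneg_left ?_ (norm_nonneg _)
      simpa using (T t).le_of_opNorm_le (T_norm t (le_of_lt ht)) x
  have h1 := ((ContinuousMap.evalCLM ℂ p).integral_comp_comm hi).symm
  change (∫ t in Ioi (0 : ℝ), Complex.exp (-(l * t)) • T t x) p =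
    ∫ t in Ioi (0 : ℝ), Complex.exp (-(l * t)) * (Complex.exp (t * q p) * x p) at h1
  have hre' : (q p - l).re < 0 := by
    rw [Complex.sub_re, q_re]
    nlinarith [sq_nonneg (p.1 : ℝ)]
  have h2 : ∀ t : ℝ, Complex.exp (-(l * t)) * (Complex.exp (t * q p) * x p) =
      Complex.exp ((q p - l) * t) * x p := fun t => by
    rw [← mul_assoc, ← Complex.exp_add]
    congr 2
    ring
  rw [h1]
  simp only [h2]
  rw [integral_mul_const, integral_exp_mul_complex_Ioi hre', norm_mul, x_norm, norm_div,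
    norm_sub_rev]
  simp [inv_mul_eq_div]

theorem upper (a s : ℝ) (ha : 0 < a) :
    ‖∫ t in Ioi (0 : ℝ), Complex.exp (-((a + s * Complex.I) * t)) • T t x‖ ^ 2 ≤
      (2 + 3 / a ^ 2) * (1 + s ^ 2)⁻¹ := by
  refine (Real.le_sqrt (norm_nonneg _) (by positivity)).1
    ((ContinuousMap.norm_le _ (Real.sqrt_nonneg _)).2 fun p => Real.le_sqrt_of_sq_le ?_)
  rw [res _ (by simpa using ha), div_pow, Complex.sq_norm, Complex.normSq_apply]
  simp only [Complex.sub_re, Complex.sub_im, q_re, q_im]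
  simp only [Complex.add_re, Complex.add_im, Complex.ofReal_re, Complex.ofReal_im, Complex.mul_re,
    Complex.mul_im, Complex.I_re, Complex.I_im, mul_zero, mul_one, sub_zero, add_zero, zero_add,
    sub_neg_eq_add]
  obtain ⟨⟨w, w0, w1⟩, ⟨v, v0, v1⟩⟩ := p
  simp only
  have h1 : a ^ 2 ≤ (a + w ^ 2) * (a + w ^ 2) := by nlinarith [sq_nonneg w, sq_nonneg (w ^ 2)]
  have h2 : 0 < a ^ 2 := by positivity
  have h3 : 0 ≤ (s - v) * (s - v) := mul_self_nonneg _
  rw [← div_eq_mul_inv, div_le_div_iff₀ (by linarith) (by positivity)]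
  have h4 : 3 ≤ 3 / a ^ 2 * ((a + w ^ 2) * (a + w ^ 2) + (s - v) * (s - v)) := by
    rw [div_mul_eq_mul_div, le_div_iff₀ h2]
    linarith
  have h5 : w ^ 2 * (1 + s ^ 2) ≤ 1 + s ^ 2 :=
    mul_le_of_le_one_left (by positivity) (by nlinarith)
  nlinarith [sq_nonneg (s - 2 * v)]

theorem lower (a s : ℝ) (ha : 0 < a) (ha1 : a < 1) (hs : s ∈ Icc (0 : ℝ) 1) :
    1 / (4 * a) ≤
      ‖∫ t in Ioi (0 : ℝ), Complex.exp (-((a + s * Complex.I) * t)) • T t x‖ ^ 2 := by
  let p : K := (⟨√a, Real.sqrt_nonneg a, Real.sqrt_le_one.2 ha1.le⟩, ⟨s, hs⟩)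
  have h0 := ContinuousMap.norm_coe_le_norm
    (∫ t in Ioi (0 : ℝ), Complex.exp (-((a + s * Complex.I) * t)) • T t x) p
  refine le_trans (le_of_eq ?_) (pow_le_pow_left₀ (norm_nonneg _) h0 2)
  have h : (a + s * Complex.I) - q p = ((2 * a : ℝ) : ℂ) := by
    have : ((√a : ℝ) : ℂ) ^ 2 = a := by rw [← Complex.ofReal_pow, Real.sq_sqrt ha.le]
    simp only [q, p, this]
    push_cast
    ring
  rw [res _ (by simpa using ha), h, Complex.norm_real, Real.norm_of_nonneg (by positivity),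
    div_pow, Real.sq_sqrt ha.le]
  field_simp
  norm_num

theorem sq_eq (y : X) : ((‖y‖₊ : ENNReal)) ^ 2 = ENNReal.ofReal (‖y‖ ^ 2) := by
  rw [ENNReal.ofReal_pow (norm_nonneg _), ofReal_norm]
  rfl

/-- A stable orbit of a norm-continuous contraction semigroup, with all the resolvent integrals
finite, for which the resolvent condition fails. -/
theorem result : ∃ (X : Type) (_ : NormedAddCommGroup X) (_ : NormedSpace ℂ X)
    (_ : CompleteSpace X) (T : ℝ → (X →L[ℂ] X)) (x : X),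
    T 0 = 1 ∧ (∀ s t : ℝ, T (s + t) = T s * T t) ∧ Continuous T ∧
    (∀ t : ℝ, 0 ≤ t → ‖T t‖ ≤ 1) ∧ Tendsto (fun t : ℝ => T t x) atTop (𝓝 0) ∧
    (∀ a : ℝ, 0 < a → ∫⁻ s : ℝ,
      ((‖∫ t in Set.Ioi (0 : ℝ),
        Complex.exp (-(((a : ℂ) + (s : ℂ) * Complex.I) * (t : ℂ))) • T t x‖₊ : ENNReal)) ^ 2 < ⊤) ∧
    ∀ a : ℝ, 0 < a → a < 1 → 1 / 4 ≤ ENNReal.ofReal a * ∫⁻ s : ℝ,
      ((‖∫ t in Set.Ioi (0 : ℝ),
        Complex.exp (-(((a : ℂ) + (s : ℂ) * Complex.I) * (t : ℂ))) • T t x‖₊ : ENNReal)) ^ 2 := by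
  refine ⟨X, inferInstance, inferInstance, inferInstance, T, x, ?_, fun s t => ?_, T_cont, T_norm,
    stable, fun a ha => ?_, fun a ha ha1 => ?_⟩
  · ext f p
    simp [T_apply]
  · ext f p
    simp [T_apply, add_mul, Complex.exp_add, mul_assoc]
  · refine lt_of_le_of_lt (lintegral_mono fun s => ?_)
      (integrable_inv_one_add_sq.const_mul (2 + 3 / a ^ 2)).lintegral_lt_top
    rw [sq_eq]
    exact ENNReal.ofReal_le_ofReal (upper a s ha)
  · refine le_trans ?_ (mul_le_mul_right (setLIntegral_le_lintegral (Icc (0 : ℝ) 1) _) _)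
    refine le_trans ?_ (mul_le_mul_right (setLIntegral_mono' (f := fun _ =>
      ENNReal.ofReal (1 / (4 * a))) measurableSet_Icc fun s hs => ?_) _)
    · rw [setLIntegral_const, Real.volume_Icc, sub_zero, ENNReal.ofReal_one, mul_one,
        ← ENNReal.ofReal_mul ha.le, show a * (1 / (4 * a)) = 1 / 4 by field_simp,
        ENNReal.ofReal_div_of_pos (by norm_num)]
      simp
    · rw [sq_eq]
      exact ENNReal.ofReal_le_ofReal (lower a s ha ha1 hs)

end Pool.Agent.Results.MP_ec63c8_an.NotNecessary
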