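import Pool.Agent.H20.Transl

set_option autoImplicit false

namespace Pool.Agent.Results.MP_ec63c8_an.NotSufficient

open Filter Topology MeasureTheory Pool.Agent.H20.Transl

/-- The resolvent condition does not imply stability of the orbit on Banach spaces. -/
theorem result : ∃ (X : Type) (_ : NormedAddCommGroup X) (_ : NormedSpace ℂ X)
    (_ : CompleteSpace X) (T : ℝ → (X →L[ℂ] X)) (x : X),
    T 0 = 1 ∧ (∀ s t : ℝ, T (s + t) = T s * T t) ∧ (∀ y : X, Continuous fun t : ℝ => T t y) ∧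
    (∀ t : ℝ, ‖T t‖ ≤ 1) ∧
    Tendsto (fun a : ℝ => ENNReal.ofReal a * ∫⁻ s : ℝ,
      ((‖∫ t in Set.Ioi (0 : ℝ),
        Complex.exp (-(((a : ℂ) + (s : ℂ) * Complex.I) * (t : ℂ))) • T t x‖₊ : ENNReal)) ^ 2)
      (𝓝[>] (0 : ℝ)) (𝓝 0) ∧
    ¬ Tendsto (fun t : ℝ => T t x) atTop (𝓝 0) :=
  ⟨X, inferInstance, inferInstance, inferInstance, T, x, T_zero, T_add, T_cont, T_norm,
    star_holds, not_stable⟩

end Pool.Agent.Results.MP_ec63c8_an.NotSufficient
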